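import Mathlib
import Pool.Agent.R369.Fad.Final

/-!
Fixed point counts of confined endomorphisms of vector groups over an arbitrary algebraically
closed field of characteristic `p` have the FAD form.
-/

namespace Pool.Agent.Results.MP_09943a_nt.VectorGroups

/-- An endomorphism of the algebraic group `G_a^r` over `K`, as a map on `K`-points: additive, with
polynomial coordinates. -/
def IsAlgEnd {K : Type*} [Field K] {r : ℕ} (σ : (Fin r → K) → (Fin r → K)) : Prop :=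
  (∀ x y, σ (x + y) = σ x + σ y) ∧
    ∃ P : Fin r → MvPolynomial (Fin r) K, ∀ x j, σ x j = MvPolynomial.eval x (P j)

/-- All iterates have finitely many fixed points. -/
def Confined {V : Type*} (σ : V → V) : Prop := ∀ n, 1 ≤ n → {x | σ^[n] x = x}.Finite

/-- The number of fixed points of the `n`-th iterate. -/
noncomputable def fixCount {V : Type*} (σ : V → V) (n : ℕ) : ℕ := Nat.card {x // σ^[n] x = x}

/-- `a` is a gcd sequence with period `d`. -/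
def IsGcdSeq {α : Type*} (a : ℕ → α) (d : ℕ) : Prop :=
  1 ≤ d ∧ ∀ n, 1 ≤ n → a n = a (Nat.gcd n d)

/-- The FAD form of a sequence of natural numbers. -/
def FADForm (p : ℕ) (u : ℕ → ℕ) : Prop :=
  ∃ (k : ℕ) (A : Matrix (Fin k) (Fin k) ℤ) (j : ℕ) (ρ : ℕ → ℚ) (s t : ℕ → ℕ),
    (∀ n, 1 ≤ n → (A ^ n - 1).det ≠ 0) ∧
    ((∃ d, IsGcdSeq ρ d) ∧ ∀ n, 1 ≤ n → 0 < ρ n) ∧
    (∃ d, IsGcdSeq s d ∧ d.Coprime p) ∧
    (∃ d, IsGcdSeq t d ∧ d.Coprime p) ∧
    ∀ n, 1 ≤ n → (u n : ℝ) =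
      |(((A ^ n - 1).det : ℤ) : ℝ)| * ((p : ℝ) ^ j) ^ n * ((ρ n : ℚ) : ℝ) *
        ((padicNorm p (n : ℚ) : ℚ) : ℝ) ^ (s n) *
        (p : ℝ) ^ (-(t n : ℝ) * (((padicNorm p (n : ℚ) : ℚ) : ℝ))⁻¹)

/-- Confined endomorphisms of `G_a^r` over any algebraically closed field of characteristic `p`
have fixed point counts of FAD form; in fact `σ_n = c^n p^(-t_n |n|_p^(-1))`. -/
theorem result (p : ℕ) [hp : Fact p.Prime] (K : Type*) [Field K] [IsAlgClosed K] [CharP K p]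
    (r : ℕ) (σ : (Fin r → K) → (Fin r → K)) (hσ : IsAlgEnd σ) (hc : Confined σ) :
    FADForm p (fixCount σ) ∧
    ∃ (C : ℕ) (t : ℕ → ℕ), (∃ d, IsGcdSeq t d ∧ d.Coprime p) ∧
      ∀ n, 1 ≤ n → fixCount σ n * p ^ (t n * p ^ padicValNat p n) = p ^ (C * n) := by
  have hmem : ∀ f ∈ Pool.Agent.R369.Fad.Nm (K := K) p r,
      (fun x => f (σ x)) ∈ Pool.Agent.R369.Fad.Nm p r := by
    apply Pool.Agent.R369.Fad.comp_mem
    intro j
    obtain ⟨P, hP⟩ := hσ.2
    have h1 : (fun x => σ x j) = fun x => MvPolynomial.eval x (P j) := by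
      funext x
      exact hP x j
    rw [h1]
    apply Pool.Agent.R369.Fad.additive_mvPoly
    intro x y
    rw [← hP, ← hP, ← hP, hσ.1]
    rfl
  obtain ⟨C, t, d, hd, hdp, ht, hmain⟩ := Pool.Agent.R369.Fad.main r σ hmem hc
  have htg : IsGcdSeq t d := ⟨hd, ht⟩
  refine ⟨?_, C, t, ⟨d, htg, hdp⟩, hmain⟩
  refine ⟨0, 0, C, fun _ => 1, fun _ => 0, t, ?_, ⟨⟨1, le_rfl, fun _ _ => rfl⟩, fun _ _ => one_pos⟩,
    ⟨1, ⟨le_rfl, fun _ _ => rfl⟩, Nat.coprime_one_left p⟩, ⟨d, htg, hdp⟩, ?_⟩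
  · intro n _
    rw [Matrix.det_fin_zero]
    exact one_ne_zero
  · intro n hn
    have h1 := hmain n hn
    have hp0 : (0 : ℝ) < p := by exact_mod_cast hp.out.pos
    have hnorm : (((padicNorm p (n : ℚ) : ℚ) : ℝ))⁻¹ = ((p ^ padicValNat p n : ℕ) : ℝ) := by
      rw [padicNorm.eq_zpow_of_nonzero (by exact_mod_cast (show n ≠ 0 by omega))]
      push_cast
      rw [zpow_neg, inv_inv, padicValRat.of_nat, zpow_natCast]
    rw [hnorm, Matrix.det_fin_zero, neg_mul, Real.rpow_neg hp0.le]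
    have h2 : (p : ℝ) ^ ((t n : ℝ) * ((p ^ padicValNat p n : ℕ) : ℝ)) =
        (p : ℝ) ^ (t n * p ^ padicValNat p n) := by
      rw [← Nat.cast_mul, Real.rpow_natCast]
    rw [h2]
    have h3 : ((fixCount σ n : ℕ) : ℝ) * (p : ℝ) ^ (t n * p ^ padicValNat p n) =
        (p : ℝ) ^ (C * n) := by exact_mod_cast h1
    have h4 : (p : ℝ) ^ (t n * p ^ padicValNat p n) ≠ 0 := (pow_pos hp0 _).ne'
    rw [← pow_mul, ← h3]
    field_simp
    simp

end Pool.Agent.Results.MP_09943a_nt.VectorGroups
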